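import Pool.Agent.Helper81.AD2.Goals

/-!
# Project AD2 (MP_ccb3f4_gt): CAN2 (packet 13637)

The number of canonical words. A canonical word is determined by the list of its heads, in which
the heads immediately followed by a tail are erased.
-/

namespace Pool.Agent.Helper39.AD2.CAN2

open Pool.Agent.Helper88.AD Pool.Agent.Helper81.AD2

variable {d : ℕ}

/-- the names of the tails -/
def tl : List (Pt d) → List (Fin d)
  | [] => []
  | p :: w => if p.2 = true then p.1 :: tl w else tl w

/-- the names of the heads -/
def hd : List (Pt d) → List (Fin d)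
  | [] => []
  | p :: w => if p.2 = true then hd w else p.1 :: hd w

/-- does the word start with a tail -/
def st : List (Pt d) → Bool
  | [] => false
  | q :: _ => q.2

/-- the heads, those followed by a tail are erased -/
def code : List (Pt d) → List (Option (Fin d))
  | [] => []
  | p :: w => if p.2 = true then code w else
      (if st w = true then none else some p.1) :: code w

/-- a head followed by a tail belongs to the same arrow -/
def Adj (w : List (Pt d)) : Prop :=
  ∀ (u v : List (Pt d)) (i j : Fin d), w = u ++ (i, false) :: (j, true) :: v → i = j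

theorem Adj.tail {p : Pt d} {w : List (Pt d)} (h : Adj (p :: w)) : Adj w :=
  fun u v i j hw => h (p :: u) v i j (by rw [hw]; rfl)

theorem tl_t {p : Pt d} (h : p.2 = true) (w : List (Pt d)) : tl (p :: w) = p.1 :: tl w := by
  simp [tl, h]

theorem tl_f {p : Pt d} (h : p.2 = false) (w : List (Pt d)) : tl (p :: w) = tl w := by
  simp [tl, h]

theorem hd_t {p : Pt d} (h : p.2 = true) (w : List (Pt d)) : hd (p :: w) = hd w := by
  simp [hd, h]

theorem hd_f {p : Pt d} (h : p.2 = false) (w : List (Pt d)) : hd (p :: w) = p.1 :: hd w := by
  simp [hd, h]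

theorem code_t {p : Pt d} (h : p.2 = true) (w : List (Pt d)) : code (p :: w) = code w := by
  simp [code, h]

theorem code_f {p : Pt d} (h : p.2 = false) (w : List (Pt d)) :
    code (p :: w) = (if st w = true then none else some p.1) :: code w := by
  simp [code, h]

theorem mem_tl (w : List (Pt d)) (x : Fin d) : x ∈ tl w ↔ (x, true) ∈ w := by
  induction w with
  | nil => simp [tl]
  | cons p w ih =>
    obtain ⟨i, b⟩ := p
    cases b
    · rw [tl_f rfl, ih]; simp
    · rw [tl_t rfl, List.mem_cons, ih]; simp

theorem mem_hd (w : List (Pt d)) (x : Fin d) : x ∈ hd w ↔ (x, false) ∈ w := by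
  induction w with
  | nil => simp [hd]
  | cons p w ih =>
    obtain ⟨i, b⟩ := p
    cases b
    · rw [hd_f rfl, List.mem_cons, ih]; simp
    · rw [hd_t rfl, ih]; simp

theorem nodup_hd {w : List (Pt d)} (h : w.Nodup) : (hd w).Nodup := by
  induction w with
  | nil => exact List.nodup_nil
  | cons p w ih =>
    obtain ⟨i, b⟩ := p
    rw [List.nodup_cons] at h
    cases b
    · rw [hd_f rfl, List.nodup_cons, mem_hd]
      exact ⟨h.1, ih h.2⟩
    · rw [hd_t rfl]; exact ih h.2

theorem pairwise_tl {w : List (Pt d)}
    (h : w.Pairwise fun p q => p.2 = true → q.2 = true → p.1 < q.1) :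
    (tl w).Pairwise (· < ·) := by
  induction w with
  | nil => exact List.Pairwise.nil
  | cons p w ih =>
    obtain ⟨i, b⟩ := p
    rw [List.pairwise_cons] at h
    cases b
    · rw [tl_f rfl]; exact ih h.2
    · rw [tl_t rfl, List.pairwise_cons]
      refine ⟨fun x hx => ?_, ih h.2⟩
      exact h.1 (x, true) ((mem_tl w x).1 hx) rfl rfl

theorem code_mem {w : List (Pt d)} {x : Fin d} (h : some x ∈ code w) : x ∈ hd w := by
  induction w with
  | nil => simp [code] at h
  | cons p w ih =>
    obtain ⟨i, b⟩ := p
    cases b
    · rw [code_f rfl, List.mem_cons] at h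
      rw [hd_f rfl, List.mem_cons]
      rcases h with h | h
      · left
        split_ifs at h
        exact Option.some.inj h
      · right; exact ih h
    · rw [code_t rfl] at h
      rw [hd_t rfl]; exact ih h

theorem lemA {w : List (Pt d)} (ha : Adj w) {x : Fin d} (h : x ∈ hd w) (ht : x ∉ tl w) :
    some x ∈ code w := by
  induction w with
  | nil => simp [hd] at h
  | cons p w ih =>
    obtain ⟨i, b⟩ := p
    cases b
    · rw [hd_f rfl, List.mem_cons] at h
      rw [tl_f rfl] at ht
      rw [code_f rfl, List.mem_cons]
      rcases h with h | h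
      · left
        rw [if_neg, h]
        intro hs
        cases w with
        | nil => simp [st] at hs
        | cons q w =>
          obtain ⟨j, c⟩ := q
          simp only [st] at hs
          subst hs
          have := ha [] w i j rfl
          apply ht
          rw [tl_t rfl, h, this]
          exact List.mem_cons_self
      · right; exact ih ha.tail h ht
    · rw [hd_t rfl] at h
      rw [tl_t rfl, List.mem_cons, not_or] at ht
      rw [code_t rfl]
      exact ih ha.tail h ht.2

theorem lemB {w : List (Pt d)} (ha : Adj w) (hn : (hd w).Nodup) (hs : st w = false) {j : Fin d}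
    {τ : List (Fin d)} (ht : tl w = j :: τ) : j ∈ hd w ∧ some j ∉ code w := by
  induction w with
  | nil => simp [tl] at ht
  | cons p w ih =>
    obtain ⟨i, b⟩ := p
    simp only [st] at hs
    subst hs
    rw [tl_f rfl] at ht
    rw [hd_f rfl] at hn ⊢
    rw [List.nodup_cons] at hn
    rw [code_f rfl, List.mem_cons, List.mem_cons, not_or]
    by_cases hw : st w = true
    · cases w with
      | nil => simp [st] at hw
      | cons q w =>
        obtain ⟨l, c⟩ := q
        simp only [st] at hw
        subst hw
        have h1 := ha [] w i l rfl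
        have h2 : l = j := by rw [tl_t rfl] at ht; exact (List.cons.inj ht).1
        have h3 : i = j := h1.trans h2
        refine ⟨Or.inl h3.symm, by simp [st], fun h => hn.1 ?_⟩
        rw [h3]
        exact code_mem h
    · have h1 := ih ha.tail hn.2 (by simpa using hw) ht
      refine ⟨Or.inr h1.1, ?_, h1.2⟩
      rw [if_neg hw]
      intro h
      exact hn.1 (Option.some.inj h ▸ h1.1)

theorem key {p : Pt d} {w w' : List (Pt d)} (hp : p.2 = true) (ha : Adj (p :: w)) (ha' : Adj w')
    (ht : tl (p :: w) = tl w') (htn : (tl (p :: w)).Nodup)
    (hn' : (hd w').Nodup) (hh : ∀ x, x ∈ hd (p :: w) ↔ x ∈ hd w') (hc : code (p :: w) = code w')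
    (hs : st w' = false) : False := by
  rw [tl_t hp] at ht htn
  rw [List.nodup_cons] at htn
  rw [code_t hp] at hc
  obtain ⟨h1, h2⟩ := lemB ha' hn' hs ht.symm
  rw [← hh, hd_t hp] at h1
  apply h2
  rw [← hc]
  exact lemA ha.tail h1 htn.1

theorem inj : ∀ (w w' : List (Pt d)), Adj w → Adj w' → tl w = tl w' → (tl w).Nodup →
    (hd w).Nodup → (hd w').Nodup → (∀ x, x ∈ hd w ↔ x ∈ hd w') → code w = code w' → w = w' := by
  intro w
  induction w with
  | nil =>
    intro w' _ _ ht _ _ _ _ hc
    cases w' with
    | nil => rfl
    | cons p w' =>
      obtain ⟨i, b⟩ := p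
      cases b
      · rw [code_f rfl] at hc; simp [code] at hc
      · rw [tl_t rfl] at ht; simp [tl] at ht
  | cons p w ih =>
    intro w' ha ha' ht htn hn hn' hh hc
    cases w' with
    | nil =>
      obtain ⟨i, b⟩ := p
      cases b
      · rw [code_f rfl] at hc; simp [code] at hc
      · rw [tl_t rfl] at ht; simp [tl] at ht
    | cons p' w' =>
      rcases hp : p.2 with _ | _
      · rcases hp' : p'.2 with _ | _
        · rw [code_f hp, code_f hp'] at hc
          obtain ⟨hc1, hc2⟩ := List.cons.inj hc
          rw [tl_f hp] at ht htn
          rw [tl_f hp'] at ht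
          have hpp : p.1 = p'.1 := by
            by_cases hs : st w = true
            · rw [if_pos hs] at hc1
              have hs' : st w' = true := by
                by_contra h
                rw [if_neg h] at hc1
                simp at hc1
              cases w with
              | nil => simp [st] at hs
              | cons q w =>
                cases w' with
                | nil => simp [st] at hs'
                | cons q' w' =>
                  simp only [st] at hs hs'
                  rw [tl_t hs, tl_t hs'] at ht
                  have e1 : p.1 = q.1 := ha [] w p.1 q.1 (by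
                    rw [← hp, ← hs]; rfl)
                  have e2 : p'.1 = q'.1 := ha' [] w' p'.1 q'.1 (by
                    rw [← hp', ← hs']; rfl)
                  rw [e1, e2]
                  exact (List.cons.inj ht).1
            · rw [if_neg hs] at hc1
              by_cases hs' : st w' = true
              · rw [if_pos hs'] at hc1
                simp at hc1
              · rw [if_neg hs'] at hc1
                exact Option.some.inj hc1
          rw [hd_f hp] at hn hh
          rw [hd_f hp'] at hn' hh
          rw [List.nodup_cons] at hn hn'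
          have hww : w = w' := by
            refine ih w' ha.tail ha'.tail ht htn hn.2 hn'.2 (fun x => ?_) hc2
            constructor
            · intro hx
              rcases List.mem_cons.1 ((hh x).1 (List.mem_cons_of_mem _ hx)) with h | h
              · exfalso
                apply hn.1
                rw [hpp, ← h]; exact hx
              · exact h
            · intro hx
              rcases List.mem_cons.1 ((hh x).2 (List.mem_cons_of_mem _ hx)) with h | h
              · exfalso
                apply hn'.1
                rw [← hpp, ← h]; exact hx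
              · exact h
          rw [hww, Prod.ext hpp (hp.trans hp'.symm)]
        · exfalso
          exact key hp' ha' ha ht.symm (ht ▸ htn) hn (fun x => (hh x).symm) hc.symm
            (by simp only [st]; exact hp)
      · rcases hp' : p'.2 with _ | _
        · exfalso
          exact key hp ha ha' ht htn hn' hh hc (by simp only [st]; exact hp')
        · rw [code_t hp, code_t hp'] at hc
          rw [tl_t hp] at ht htn
          rw [tl_t hp'] at ht
          rw [hd_t hp] at hn hh
          rw [hd_t hp'] at hn' hh
          rw [List.nodup_cons] at htn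
          obtain ⟨e1, e2⟩ := List.cons.inj ht
          rw [ih w' ha.tail ha'.tail e2 htn.2 hn hn' hh hc, Prod.ext e1 (hp.trans hp'.symm)]

theorem length_code (w : List (Pt d)) : (code w).length = (hd w).length := by
  induction w with
  | nil => rfl
  | cons p w ih =>
    rcases hp : p.2 with _ | _
    · rw [code_f hp, hd_f hp, List.length_cons, List.length_cons, ih]
    · rw [code_t hp, hd_t hp, ih]

theorem pairwise_code {w : List (Pt d)} (hn : (hd w).Nodup) :
    (code w).Pairwise fun a b => ∀ x, a = some x → b ≠ some x := by
  induction w with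
  | nil => exact List.Pairwise.nil
  | cons p w ih =>
    rcases hp : p.2 with _ | _
    · rw [hd_f hp, List.nodup_cons] at hn
      rw [code_f hp, List.pairwise_cons]
      refine ⟨fun b hb x hx hbx => ?_, ih hn.2⟩
      split_ifs at hx
      rw [Option.some.injEq] at hx
      rw [hbx, ← hx] at hb
      exact hn.1 (code_mem hb)
    · rw [hd_t hp] at hn
      rw [code_t hp]; exact ih hn

theorem canTl {w : List (Pt d)} (h : Can w) : (tl w).Pairwise (· < ·) := by
  obtain ⟨h1, h2, -⟩ := h
  rw [isD_iff] at h1
  apply pairwise_tl
  rw [List.pairwise_iff_getElem]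
  intro a b ha hb hab h3 h4
  by_contra h5
  rw [not_lt] at h5
  have e1 : w[a] = ((w[a]).1, true) := by rw [← h3]
  have e2 : w[b] = ((w[b]).1, true) := by rw [← h4]
  have f1 : w.idxOf ((w[a]).1, true) = a := by rw [← e1]; exact h1.1.idxOf_getElem a ha
  have f2 : w.idxOf ((w[b]).1, true) = b := by rw [← e2]; exact h1.1.idxOf_getElem b hb
  rcases h5.lt_or_eq with h6 | h6
  · have := h2 _ _ h6
    rw [f1, f2] at this
    omega
  · rw [h6, f1] at f2
    omega

theorem code_inj {w w' : List (Pt d)} (h : Can w) (h' : Can w') (hc : code w = code w') :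
    w = w' := by
  have k := (isD_iff w).1 h.1
  have k' := (isD_iff w').1 h'.1
  have t1 := canTl h
  have t2 := canTl h'
  have n1 : (tl w).Nodup := t1.imp fun h => ne_of_lt h
  have n2 : (tl w').Nodup := t2.imp fun h => ne_of_lt h
  refine inj w w' h.2.2 h'.2.2 ?_ n1 (nodup_hd k.1) (nodup_hd k'.1) ?_ hc
  · refine List.Perm.eq_of_pairwise' (r := (· < ·)) t1 t2 ?_
    rw [List.perm_ext_iff_of_nodup n1 n2]
    intro a
    rw [mem_tl, mem_tl]
    exact ⟨fun _ => k'.2 _, fun _ => k.2 _⟩
  · intro x
    rw [mem_hd, mem_hd]
    exact ⟨fun _ => k'.2 _, fun _ => k.2 _⟩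

/-- the list given by a partial injection -/
noncomputable def Phi (p : Σ A : Finset (Fin d), (A ↪ Fin d)) : List (Option (Fin d)) :=
  by
    classical
    exact List.ofFn fun k : Fin d => if h : k ∈ p.1 then some (p.2 ⟨k, h⟩) else none

theorem mem_range_Phi {L : List (Option (Fin d))} (hL : L.length = d)
    (hp : L.Pairwise fun a b => ∀ x, a = some x → b ≠ some x) : L ∈ Set.range (Phi (d := d)) := by
  classical
  rw [List.pairwise_iff_getElem] at hp
  have hlt : ∀ k : Fin d, (k : ℕ) < L.length := fun k => by rw [hL]; exact k.2
  have hpp : ∀ (a b : Fin d) (x : Fin d), L[(a : ℕ)]'(hlt a) = some x →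
      L[(b : ℕ)]'(hlt b) = some x → a = b := by
    intro a b x h1 h2
    rcases lt_trichotomy (a : ℕ) (b : ℕ) with h | h | h
    · exact absurd h2 (hp a b (hlt a) (hlt b) h x h1)
    · exact Fin.ext h
    · exact absurd h1 (hp b a (hlt b) (hlt a) h x h2)
  refine ⟨⟨Finset.univ.filter fun k => (L[(k : ℕ)]'(hlt k)).isSome = true,
    ⟨fun k => (L[((k : Fin d) : ℕ)]'(hlt k)).get (Finset.mem_filter.1 k.2).2, ?_⟩⟩, ?_⟩
  · intro a b hab
    apply Subtype.ext
    simp only at hab
    refine hpp a b ((L[((a : Fin d) : ℕ)]'(hlt a)).get (Finset.mem_filter.1 a.2).2)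
      (Option.some_get (Finset.mem_filter.1 a.2).2).symm ?_
    rw [hab]
    exact (Option.some_get (Finset.mem_filter.1 b.2).2).symm
  · unfold Phi
    apply List.ext_getElem
    · rw [List.length_ofFn, hL]
    · intro n h1 h2
      rw [List.getElem_ofFn]
      simp only [Finset.mem_filter, Finset.mem_univ, true_and, Function.Embedding.coeFn_mk,
        Option.some_get]
      split_ifs with h
      · rfl
      · rw [Bool.not_eq_true, Option.isSome_eq_false_iff, Option.isNone_iff_eq_none] at h
        exact h.symm

theorem card_sig : Fintype.card (Σ A : Finset (Fin d), (A ↪ Fin d)) = bd d := by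
  classical
  rw [Fintype.card_sigma]
  have h1 : ∀ A : Finset (Fin d), Fintype.card (A ↪ Fin d) = d.descFactorial A.card := by
    intro A
    rw [Fintype.card_embedding_eq, Fintype.card_fin, Fintype.card_coe]
  rw [Finset.sum_congr rfl fun A _ => h1 A]
  have h2 := Finset.sum_powerset_apply_card (fun k => d.descFactorial k)
    (x := (Finset.univ : Finset (Fin d)))
  rw [Finset.powerset_univ, Finset.card_univ, Fintype.card_fin] at h2
  rw [h2]
  unfold bd
  refine Finset.sum_congr rfl fun k _ => ?_
  rw [Nat.descFactorial_eq_factorial_mul_choose, smul_eq_mul]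
  ring

theorem t : S_CAN2 := by
  classical
  intro d
  have h1 : {w : List (Pt d) | Can w}.ncard = (code '' {w : List (Pt d) | Can w}).ncard := by
    refine (Set.InjOn.ncard_image ?_).symm
    intro w hw w' hw' h
    exact code_inj hw hw' h
  have h2 : code '' {w : List (Pt d) | Can w} ⊆ Set.range (Phi (d := d)) := by
    rintro _ ⟨w, hw, rfl⟩
    have k := (isD_iff w).1 hw.1
    have hn := nodup_hd k.1
    refine mem_range_Phi ?_ (pairwise_code hn)
    rw [length_code]
    have : (hd w).toFinset = Finset.univ := by
      ext x; simp [mem_hd, k.2 (x, false)]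
    have h3 := List.toFinset_card_of_nodup hn
    rw [this, Finset.card_univ, Fintype.card_fin] at h3
    exact h3.symm
  rw [h1]
  refine (Set.ncard_le_ncard h2 (Set.finite_range _)).trans ?_
  rw [← card_sig, ← Nat.card_eq_fintype_card, ← Nat.card_coe_set_eq]
  exact Finite.card_range_le _

end Pool.Agent.Helper39.AD2.CAN2
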